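import Pool.Agent.ASE.Stmts3

/-!
# Squad ASE, row X2R: the values of `X12`
-/

open scoped BigOperators

noncomputable section

namespace Pool.Agent.PP.SE.H47

open Pool.Agent.Helper51_AWC Pool.Agent.Helper79_WRA Pool.Agent.PP Pool.Agent.PP.KF
open Pool.Agent.PP.K9 Pool.Agent.PP.K9.H97 Pool.Agent.PP.H75 Pool.Agent.PP.T3 Pool.Agent.PP.SO
open Pool.Agent.PP.SD

attribute [local instance] Ideal.Quotient.field

set_option linter.unusedSectionVars false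

section lin

variable {V₀ G : Type} [CommGroup V₀] [Group G] {M : Ideal (integralClosure ℤ ℂ)} [M.IsMaximal]
  {n : ℕ}

/-- the number of the pairs in `HX` -/
def cnt (B : Bk (FF M) V₀ G) (m : ℕ) (L : Set (SO.SS n V₀)) (g : G) : ℂ :=
  ({w : G × G | SO.kap w.1 w.2 = g ∧ ∀ s ∈ L,
    ((g ^ m) ^ (s.2.1 : ℕ) * B.i s.2.2.1) * w.1 = w.1 * ((g ^ m) ^ (s.2.1 : ℕ) * B.i s.2.2.1) ∧
    w.2⁻¹ * ((g ^ m) ^ (s.2.1 : ℕ) * B.i s.2.2.1) * w.2 =
      (g ^ m) ^ (s.2.1 : ℕ) * B.i s.2.2.1 * (w.1 ^ m) ^ (s.1 : ℕ)}.ncard : ℂ)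

theorem hx_def (B : Bk (FF M) V₀ G) (m : ℕ) (W : Subgroup V₀) (a : G → ℂ)
    (L : Set (SO.SS n V₀)) :
    HX B m W a L = (Nat.card (B.C W) : ℂ)⁻¹ * ∑ᶠ g : G, a g * cnt B m L g := rfl

theorem hx_smul [Finite G] (B : Bk (FF M) V₀ G) (m : ℕ) (W : Subgroup V₀) (z : ℂ) (a : G → ℂ)
    (L : Set (SO.SS n V₀)) : HX B m W (fun g => z * a g) L = z * HX B m W a L := by
  have : Fintype G := Fintype.ofFinite G
  rw [hx_def, hx_def, finsum_eq_sum_of_fintype, finsum_eq_sum_of_fintype]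
  rw [Finset.mul_sum, Finset.mul_sum, Finset.mul_sum]
  refine Finset.sum_congr rfl fun g _ => ?_
  ring

theorem hx_sum [Finite G] {ι : Type} [Finite ι] (B : Bk (FF M) V₀ G) (m : ℕ) (W : Subgroup V₀)
    (z : ι → ℂ) (a : ι → G → ℂ) (L : Set (SO.SS n V₀)) :
    HX B m W (fun g => ∑ᶠ τ : ι, z τ * a τ g) L = ∑ᶠ τ : ι, z τ * HX B m W (a τ) L := by
  have : Fintype G := Fintype.ofFinite G
  have : Fintype ι := Fintype.ofFinite ι
  rw [hx_def, finsum_eq_sum_of_fintype, finsum_eq_sum_of_fintype]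
  have h1 : ∀ g, (∑ᶠ τ : ι, z τ * a τ g) * cnt B m L g = ∑ τ : ι, z τ * (a τ g * cnt B m L g) := by
    intro g
    rw [finsum_eq_sum_of_fintype, Finset.sum_mul]
    refine Finset.sum_congr rfl fun τ _ => ?_
    ring
  rw [Finset.sum_congr rfl fun g _ => h1 g, Finset.sum_comm, Finset.mul_sum]
  refine Finset.sum_congr rfl fun τ _ => ?_
  rw [hx_def, finsum_eq_sum_of_fintype, ← Finset.mul_sum]
  ring

end lin

section img

variable {V₀ : Type} [CommGroup V₀] {n : ℕ}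

theorem mp_qL {E₀ : Subgroup (MulAut V₀)} {L : Set (SO.SS n V₀)} {σ : MulAut V₀}
    (hσ : σ ∈ EL E₀ L) : mp σ (qL L) = pL L := by
  unfold mp qL pL
  rw [MonoidHom.map_closure]
  congr 1
  ext p
  constructor
  · rintro ⟨_, ⟨s, hs, rfl⟩, rfl⟩
    exact ⟨s, hs, (hσ.2 s hs).symm⟩
  · rintro ⟨s, hs, rfl⟩
    exact ⟨s.2.2.2, ⟨s, hs, rfl⟩, hσ.2 s hs⟩

theorem pL_bot {L : Set (SO.SS n V₀)} (h : ∀ s ∈ L, s.2.2.1 = 1) : pL L = ⊥ := by
  unfold pL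
  rw [Subgroup.closure_eq_bot_iff]
  rintro _ ⟨s, hs, rfl⟩
  exact h s hs

theorem qL_bot {L : Set (SO.SS n V₀)} (h : qL L = ⊥) : ∀ s ∈ L, s.2.2.2 = 1 := by
  intro s hs
  have h1 : s.2.2.2 ∈ qL L := Subgroup.subset_closure ⟨s, hs, rfl⟩
  rw [h] at h1
  exact h1

theorem card_mp (σ : MulAut V₀) (W : Subgroup V₀) : Nat.card (mp σ W) = Nat.card W := by
  unfold mp
  exact Nat.card_congr (W.equivMapOfInjective _ (MulEquiv.injective σ)).symm.toEquiv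

/-- the sum over the cosets -/
theorem sum_st [Finite V₀] (E₀ : Subgroup (MulAut V₀)) (L : Set (SO.SS n V₀))
    (F : MulAut V₀ → ℂ) :
    ∑ᶠ σ ∈ EL E₀ L, ∑ᶠ τ : St E₀ (pL L), F (τ * σ) = (nS E₀ (pL L) : ℂ) * ∑ᶠ σ ∈ EL E₀ L, F σ := by
  classical
  have hfin : Finite (MulAut V₀) := inferInstance
  have : Fintype (MulAut V₀) := Fintype.ofFinite _
  have : Fintype (St E₀ (pL L)) := Fintype.ofFinite _
  have e1 : ∀ f : MulAut V₀ → ℂ, ∑ᶠ σ ∈ EL E₀ L, f σ =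
      ∑ σ : MulAut V₀, if σ ∈ EL E₀ L then f σ else 0 := by
    intro f
    rw [finsum_mem_def, finsum_eq_sum_of_fintype]
    exact Finset.sum_congr rfl fun σ _ => Set.indicator_apply _ _ _
  rw [e1, e1]
  have h1 : ∀ τ : St E₀ (pL L), ∑ σ : MulAut V₀, (if σ ∈ EL E₀ L then F (τ * σ) else 0) =
      ∑ σ : MulAut V₀, if σ ∈ EL E₀ L then F σ else 0 := by
    intro τ
    rw [← Equiv.sum_comp (Equiv.mulLeft (τ : MulAut V₀)) (fun σ => if σ ∈ EL E₀ L then F σ else 0)]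
    refine Finset.sum_congr rfl fun σ _ => ?_
    have h2 : σ ∈ EL E₀ L ↔ (τ : MulAut V₀) * σ ∈ EL E₀ L := by
      have hτp : ∀ s ∈ L, (τ : MulAut V₀) s.2.2.1 = s.2.2.1 := fun s hs =>
        τ.2.2 _ (Subgroup.subset_closure ⟨s, hs, rfl⟩)
      constructor
      · rintro ⟨h3, h4⟩
        refine ⟨E₀.mul_mem τ.2.1 h3, fun s hs => ?_⟩
        rw [MulAut.mul_apply, h4 s hs, hτp s hs]
      · rintro ⟨h3, h4⟩
        refine ⟨(E₀.mul_mem_cancel_left τ.2.1).1 h3, fun s hs => ?_⟩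
        have h5 := h4 s hs
        rw [MulAut.mul_apply] at h5
        exact (MulEquiv.injective (τ : MulAut V₀)) (h5.trans (hτp s hs).symm)
    rw [Equiv.coe_mulLeft]
    exact if_congr h2 rfl rfl
  have h3 : ∀ σ : MulAut V₀, (if σ ∈ EL E₀ L then ∑ᶠ τ : St E₀ (pL L), F (τ * σ) else 0) =
      ∑ τ : St E₀ (pL L), if σ ∈ EL E₀ L then F (τ * σ) else 0 := by
    intro σ
    by_cases h : σ ∈ EL E₀ L
    · simp only [if_pos h, finsum_eq_sum_of_fintype]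
    · simp only [if_neg h, Finset.sum_const_zero]
  rw [Finset.sum_congr rfl fun σ _ => h3 σ, Finset.sum_comm, Finset.sum_congr rfl fun τ _ => h1 τ,
    Finset.sum_const, Finset.card_univ, nsmul_eq_mul]
  unfold nS
  rw [Nat.card_eq_fintype_card]

end img

section main

variable {V₀ G : Type} [CommGroup V₀] [Finite V₀] [Group G] [Finite G]
  {M : Ideal (integralClosure ℤ ℂ)} [M.IsMaximal] {n : ℕ}


theorem x12_zero (B : Bk (FF M) V₀ G) (hi : Function.Injective B.i) (m : ℕ)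
    (a b : Subgroup V₀ → G → ℂ) (L : Set (SO.SS n V₀)) (hp : pL L ≠ ⊥) (hq : qL L = ⊥) :
    X12 B m a b L = 0 := by
  have hq' := qL_bot hq
  have hex : ∃ s ∈ L, s.2.2.1 ≠ 1 := by
    by_contra h
    push Not at h
    exact hp (pL_bot h)
  obtain ⟨s, hs, hs1⟩ := hex
  unfold X12
  have h0 : ∀ w : G × G, {z : XX w.1 w.2 | ∀ s ∈ L,
      c12 m B.i z.1.1 z.1.2.1 z.1.2.2 s.1 s.2.1 s.2.2.1 s.2.2.2} = ∅ := by
    intro w
    rw [Set.eq_empty_iff_forall_notMem]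
    intro z hz
    have h1 := (hz s hs).2.2
    rw [hq' s hs, map_one, inv_one, mul_one] at h1
    have h2 : B.i s.2.2.1 = 1 := mul_eq_right.1 h1.symm
    exact hs1 (hi (h2.trans (map_one B.i).symm))
  have h1 : ∀ w : G × G, a (pL L) w.1 * b (qL L) w.2 * (({z : XX w.1 w.2 | ∀ s ∈ L,
      c12 m B.i z.1.1 z.1.2.1 z.1.2.2 s.1 s.2.1 s.2.2.1 s.2.2.2}.ncard : ℕ) : ℂ) = 0 := by
    intro w
    rw [h0 w, Set.ncard_empty, Nat.cast_zero, mul_zero]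
  rw [finsum_congr h1, finsum_zero, mul_zero]

theorem key (x2c : X2cStmt) {ℓ : ℕ} [Fact ℓ.Prime] (hM : (ℓ : integralClosure ℤ ℂ) ∈ M)
    (hℓ : ℓ ≠ 2) {E₀ : Subgroup (MulAut V₀)} (hq : Fq ℓ V₀ E₀) {B : Bk (FF M) V₀ G}
    (hB : Sb ℓ M E₀ B) {m : ℕ} (hPE : PE ℓ n m G) (L : Set (SO.SS n V₀)) (hp : pL L ≠ ⊥)
    (a b : Subgroup V₀ → G → ℂ) (ha : Cz B (pL L) (a (pL L)))
    (hb : qL L ≠ ⊥ → Cz B (qL L) (b (qL L))) (c : MulAut V₀ → ℂ) (f : MulAut V₀ → G → ℂ)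
    (hf : ∀ σ ∈ EL E₀ L, HX B m (pL L) (fun g => mulF (a (pL L)) (ac B σ (b (qL L))) g) L =
      c σ * HX B m (pL L) (f σ) L) :
    X12 B m a b L = (nS E₀ (pL L) : ℂ)⁻¹ * ∑ᶠ σ ∈ EL E₀ L, c σ * HX B m (pL L) (f σ) L := by
  by_cases h : qL L = ⊥
  · rw [x12_zero B hB.inj m a b L hp h]
    have hE : EL E₀ L = ∅ := by
      rw [Set.eq_empty_iff_forall_notMem]
      intro σ hσ
      apply hp
      apply pL_bot
      intro s hs
      rw [← hσ.2 s hs, qL_bot h s hs, map_one]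
    rw [hE, finsum_mem_empty, mul_zero]
  · rw [(x2c ℓ M hM hℓ V₀ G E₀ hq B hB n m hPE L a b).2 ha (hb h) hp]
    congr 1
    exact finsum_mem_congr rfl hf

end main

/-- Row X2R. -/
theorem x2r (x2c : X2cStmt) (fmb : FmbStmt) (prb : PrbStmt) (czb : CzbStmt) : X2rStmt := by
  intro ℓ _ M _ hM hℓ V₀ G _ _ _ _ E₀ hFq B hB D hD n m hPE c d L hp
  classical
  have hP := prb ℓ V₀ E₀ hFq (pL L)
  have hn0 : (nS E₀ (pL L) : ℂ) ≠ 0 := by
    have h1 := hP.2.2.2.2.2.2.2.1.2.1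
    exact_mod_cast h1.ne'
  have hF := fmb ℓ M hM hℓ V₀ G E₀ hFq B hB D hD
  -- the elements `κ et`
  have czt : ∀ W : Subgroup V₀, W ≠ ⊥ → ∀ v, Cz B W (tk B (pr ℓ E₀ W v) (D.et W)) := by
    intro W hW v
    rcases (prb ℓ V₀ E₀ hFq W).2.2.2.2.2.2.1 hW |>.1 with h | h
    · have h1 : D.et W = 0 := (hD.f1 W hW h).1
      have h2 : tk B (pr ℓ E₀ W v) (D.et W) = D.et W := by
        rw [h1]
        rfl
      rw [h2]
      exact hD.e1 W hW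
    · exact ((hF W hW).2.2.1 _ ((prb ℓ V₀ E₀ hFq W).2.2.2.2.1 h v)).1
  have hqb : ∀ σ ∈ EL E₀ L, qL L ≠ ⊥ := by
    intro σ hσ h
    apply hp
    apply pL_bot
    intro s hs
    rw [← hσ.2 s hs, qL_bot h s hs, map_one]
  -- conjugation
  have acf : ∀ σ ∈ EL E₀ L, ac B σ (fm ℓ E₀ B D (qL L) d) = fm ℓ E₀ B D (pL L) (σ d) := by
    intro σ hσ
    rw [((hF (qL L) (hqb σ hσ)).2.2.2.1 σ hσ.1).1 d, mp_qL hσ]
  have act : pL L ∈ RL ℓ E₀ → ∀ σ ∈ EL E₀ L, ac B σ (tk B (pr ℓ E₀ (qL L) d) (D.et (qL L))) =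
      tk B (pr ℓ E₀ (pL L) (σ d)) (D.et (pL L)) := by
    intro hR σ hσ
    have h4 := (prb ℓ V₀ E₀ hFq (qL L)).2.2.2.1 σ hσ.1
    rw [mp_qL hσ] at h4
    have hR' : qL L ∈ RL ℓ E₀ := by
      refine ⟨?_, ?_⟩
      · rw [← card_mp σ (qL L), mp_qL hσ]
        exact hR.1
      · rw [← h4.1]
        exact hR.2
    have h5 := (prb ℓ V₀ E₀ hFq (qL L)).2.2.2.2.1 hR' d
    rw [((hF (qL L) (hqb σ hσ)).2.2.2.1 σ hσ.1).2 _ h5, mp_qL hσ, h4.2]
  obtain ⟨f1, f2, f3, f4, f5, f6, f7, f8, f9, f10⟩ := hF (pL L) hp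
  obtain ⟨p1, p2, p3, p4, p5, p6, p7, p8, p9, p10⟩ := hP
  refine ⟨?_, fun hR => ⟨?_, ?_, ?_⟩⟩
  · -- (1)
    have h0 : X12 B m (fun W => fm ℓ E₀ B D W c) (fun W => fm ℓ E₀ B D W d) L =
        (nS E₀ (pL L) : ℂ)⁻¹ * ∑ᶠ σ ∈ EL E₀ L, HX B m (pL L)
          (fun g => mulF (fm ℓ E₀ B D (pL L) c) (fm ℓ E₀ B D (pL L) (σ d)) g) L := by
      rw [key x2c hM hℓ hFq hB hPE L hp _ _ (f1 c) (fun h => (hF (qL L) h).1 d) (fun _ => 1)
        (fun σ => fun g => mulF (fm ℓ E₀ B D (pL L) c) (fm ℓ E₀ B D (pL L) (σ d)) g)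
        (fun σ hσ => by
          rw [one_mul, acf σ hσ])]
      congr 1
      refine finsum_mem_congr rfl fun σ _ => one_mul _
    rw [h0]
    have h1 : ∀ σ ∈ EL E₀ L, HX B m (pL L)
        (fun g => mulF (fm ℓ E₀ B D (pL L) c) (fm ℓ E₀ B D (pL L) (σ d)) g) L =
        ∑ᶠ τ : St E₀ (pL L), ((cS D.U c d ((τ : MulAut V₀) * σ) (pL L) : ℚ) : ℂ) *
          HX B m (pL L) (fm ℓ E₀ B D (pL L) (c * ((τ : MulAut V₀) * σ) d)) L := by
      intro σ hσ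
      have h2 : (fun g => mulF (fm ℓ E₀ B D (pL L) c) (fm ℓ E₀ B D (pL L) (σ d)) g) =
          fun g => ∑ᶠ τ : St E₀ (pL L), ((cS D.U c d ((τ : MulAut V₀) * σ) (pL L) : ℚ) : ℂ) *
            fm ℓ E₀ B D (pL L) (c * ((τ : MulAut V₀) * σ) d) g := by
        funext g
        rw [f2 c (σ d) g]
        rfl
      rw [h2]
      exact hx_sum B m (pL L) (fun τ : St E₀ (pL L) =>
        ((cS D.U c d ((τ : MulAut V₀) * σ) (pL L) : ℚ) : ℂ))
        (fun τ => fm ℓ E₀ B D (pL L) (c * ((τ : MulAut V₀) * σ) d)) L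
    rw [finsum_mem_congr rfl h1, sum_st E₀ L (fun σ => ((cS D.U c d σ (pL L) : ℚ) : ℂ) *
      HX B m (pL L) (fm ℓ E₀ B D (pL L) (c * σ d)) L), ← mul_assoc, inv_mul_cancel₀ hn0, one_mul]
  · -- (2)
    rw [key x2c hM hℓ hFq hB hPE L hp _ _ (czt (pL L) hp c) (fun h => (hF (qL L) h).1 d)
      (fun σ => (nS E₀ (pL L) : ℂ) * (ux D.U (pL L) (σ d) : ℚ))
      (fun σ => tk B (pr ℓ E₀ (pL L) (c * σ d)) (D.et (pL L)))
      (fun σ hσ => by
        rw [acf σ hσ, ← hx_smul]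
        congr 1
        funext g
        rw [(f3 _ (p5 hR c)).2 (σ d) g, p2.2.1])]
    rw [mul_finsum_mem]
    refine finsum_mem_congr rfl fun σ _ => ?_
    field_simp
  · -- (3)
    rw [key x2c hM hℓ hFq hB hPE L hp _ _ (f1 c) (fun h => czt (qL L) h d)
      (fun σ => (nS E₀ (pL L) : ℂ) * (ux D.U (pL L) c : ℚ))
      (fun σ => tk B (pr ℓ E₀ (pL L) (c * σ d)) (D.et (pL L)))
      (fun σ hσ => by
        rw [act hR σ hσ, ← hx_smul]
        have h6 : (fun g => mulF (fm ℓ E₀ B D (pL L) c)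
            (tk B (pr ℓ E₀ (pL L) (σ d)) (D.et (pL L))) g) =
            (fun g => mulF (tk B (pr ℓ E₀ (pL L) (σ d)) (D.et (pL L)))
              (fm ℓ E₀ B D (pL L) c) g) := by
          have hC := czb ℓ M hM hℓ V₀ G E₀ hFq B hB (pL L)
          have hm := hC.2.2.2.1
          have h7 := hm _ _ (f1 c) (czt (pL L) hp (σ d))
          have h8 := hm _ _ (czt (pL L) hp (σ d)) (f1 c)
          refine hC.2.2.2.2.2.1 _ _ h7.1 h8.1 fun χ hχ => ?_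
          rw [h7.2 χ hχ, h8.2 χ hχ, mul_comm]
        rw [h6]
        congr 1
        funext g
        rw [(f3 _ (p5 hR (σ d))).2 c g, p2.2.1, mul_comm (pr ℓ E₀ (pL L) c)])]
    rw [mul_finsum_mem]
    refine finsum_mem_congr rfl fun σ _ => ?_
    field_simp
  · -- (4)
    rw [key x2c hM hℓ hFq hB hPE L hp _ _ (czt (pL L) hp c) (fun h => czt (qL L) h d)
      (fun σ => 1) (fun σ => tk B (pr ℓ E₀ (pL L) (c * σ d))
        (fun g => mulF (D.et (pL L)) (D.et (pL L)) g))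
      (fun σ hσ => by
        rw [act hR σ hσ, one_mul]
        congr 1
        funext g
        rw [f7 _ (p5 hR c) _ (p5 hR (σ d)) g, p2.2.1])]
    congr 1
    refine finsum_mem_congr rfl fun σ _ => one_mul _

end Pool.Agent.PP.SE.H47
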