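import Pool.Agent.ASE.Stmts5
import Pool.Agent.Helper9_ASO.MBI
import Pool.Agent.Helper65_ASO.WZE
import Pool.Agent.Helper47_ASE.X2R

/-!
# Squad ASE, row FT3: the sums `FWS` for the indicator function of the free types
-/

open scoped BigOperators

set_option linter.unusedSectionVars false

noncomputable section

namespace Pool.Agent.PP.SE.H47

open Pool.Agent.Helper51_AWC Pool.Agent.Helper79_WRA Pool.Agent.PP Pool.Agent.PP.KF
open Pool.Agent.PP.K9 Pool.Agent.PP.K9.H97 Pool.Agent.PP.H75 Pool.Agent.PP.T3 Pool.Agent.PP.SO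
open Pool.Agent.PP.SD

attribute [local instance] Ideal.Quotient.field

section gen

variable {V₀ G : Type} [CommGroup V₀] [Group G] {M : Ideal (integralClosure ℤ ℂ)} [M.IsMaximal]
  {n : ℕ}

/-- the condition of `s` for `(x, y)` -/
def Cs (B : Bk (FF M) V₀ G) (m : ℕ) (x y : G) (s : SO.SS n V₀) : Prop :=
  ((SO.kap x y ^ m) ^ (s.2.1 : ℕ) * B.i s.2.2.1) * x =
      x * ((SO.kap x y ^ m) ^ (s.2.1 : ℕ) * B.i s.2.2.1) ∧
    y⁻¹ * ((SO.kap x y ^ m) ^ (s.2.1 : ℕ) * B.i s.2.2.1) * y =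
      (SO.kap x y ^ m) ^ (s.2.1 : ℕ) * B.i s.2.2.1 * (x ^ m) ^ (s.1 : ℕ)

/-- the type of `(x, y)` -/
def tau (B : Bk (FF M) V₀ G) (m : ℕ) (σ : MulAut V₀) (a : Subgroup V₀) (w : G × G) :
    Set (SO.SS n V₀) :=
  {s | s.2.2.1 ∈ a ∧ σ s.2.2.2 = s.2.2.1 ∧ Cs B m w.1 w.2 s}

open Classical in
theorem cnt_sum [Fintype G] (B : Bk (FF M) V₀ G) (m : ℕ) (L : Set (SO.SS n V₀)) (a : G → ℂ) :
    ∑ g, a g * cnt B m L g =
      ∑ w : G × G, if ∀ s ∈ L, Cs B m w.1 w.2 s then a (SO.kap w.1 w.2) else 0 := by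
  have h1 : ∀ g, cnt B m L g =
      ∑ w : G × G, if SO.kap w.1 w.2 = g then (if ∀ s ∈ L, Cs B m w.1 w.2 s then (1 : ℂ) else 0)
        else 0 := by
    intro g
    have h2 : {w : G × G | SO.kap w.1 w.2 = g ∧ ∀ s ∈ L,
        ((g ^ m) ^ (s.2.1 : ℕ) * B.i s.2.2.1) * w.1 =
          w.1 * ((g ^ m) ^ (s.2.1 : ℕ) * B.i s.2.2.1) ∧
        w.2⁻¹ * ((g ^ m) ^ (s.2.1 : ℕ) * B.i s.2.2.1) * w.2 =
          (g ^ m) ^ (s.2.1 : ℕ) * B.i s.2.2.1 * (w.1 ^ m) ^ (s.1 : ℕ)} =
        ((Finset.univ.filter fun w : G × G => SO.kap w.1 w.2 = g ∧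
          ∀ s ∈ L, Cs B m w.1 w.2 s : Finset (G × G)) : Set (G × G)) := by
      ext w
      rw [Finset.coe_filter]
      simp only [Set.mem_ofPred_eq, Finset.mem_univ, true_and]
      constructor
      · rintro ⟨rfl, h⟩
        exact ⟨rfl, h⟩
      · rintro ⟨rfl, h⟩
        exact ⟨rfl, h⟩
    unfold cnt
    rw [h2, Set.ncard_coe_finset, Finset.card_filter, Nat.cast_sum]
    refine Finset.sum_congr rfl fun w _ => ?_
    by_cases hk : SO.kap w.1 w.2 = g
    · by_cases hc : ∀ s ∈ L, Cs B m w.1 w.2 s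
      · rw [if_pos ⟨hk, hc⟩, if_pos hk, if_pos hc, Nat.cast_one]
      · rw [if_neg fun h => hc h.2, if_pos hk, if_neg hc, Nat.cast_zero]
    · rw [if_neg fun h => hk h.1, if_neg hk, Nat.cast_zero]
  have h3 : ∀ g, a g * cnt B m L g =
      ∑ w : G × G, if SO.kap w.1 w.2 = g then a g * (if ∀ s ∈ L, Cs B m w.1 w.2 s then (1 : ℂ) else 0)
        else 0 := by
    intro g
    rw [h1, Finset.mul_sum]
    refine Finset.sum_congr rfl fun w _ => ?_
    rw [mul_ite, mul_zero]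
  rw [Finset.sum_congr rfl fun g _ => h3 g, Finset.sum_comm]
  refine Finset.sum_congr rfl fun w _ => ?_
  rw [Finset.sum_ite_eq, if_pos (Finset.mem_univ _), mul_ite, mul_one, mul_zero]

end gen

section typ

variable {V₀ : Type} [CommGroup V₀] [Finite V₀] {n : ℕ}

theorem p_mem {L : Set (SO.SS n V₀)} {s : SO.SS n V₀} (hs : s ∈ L) : s.2.2.1 ∈ pL L :=
  Subgroup.subset_closure ⟨s, hs, rfl⟩

/-- the sum of the Möbius transforms over the sets with `pL = a` -/
theorem mob_sum {ℓ : ℕ} [Fact ℓ.Prime] {a : Subgroup V₀} (ha : Nat.card a = ℓ)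
    (F : Set (SO.SS n V₀) → ℚ) (τ : Set (SO.SS n V₀)) (hτ : ∀ s ∈ τ, s.2.2.1 ∈ a) :
    ∑ᶠ L ∈ {L : Set (SO.SS n V₀) | pL L = a ∧ L ⊆ τ}, mob F L = F τ - F (P1 τ) := by
  have hf : Finite (SO.SS n V₀) := inferInstance
  have ha1 : a ≠ ⊥ := by
    intro h
    rw [h, Subgroup.card_bot] at ha
    exact (Fact.out : ℓ.Prime).one_lt.ne ha
  have h1 := (SO.H9.mbi (SO.SS n V₀) F).1 τ
  have h2 := (SO.H9.mbi (SO.SS n V₀) F).1 (P1 τ)
  have hu : {L : Set (SO.SS n V₀) | L ⊆ τ} = {L | pL L = a ∧ L ⊆ τ} ∪ {L | L ⊆ P1 τ} := by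
    ext L
    constructor
    · intro hL
      have hL' : L ⊆ τ := hL
      have hle : pL L ≤ a := by
        unfold pL
        rw [Subgroup.closure_le]
        rintro _ ⟨s, hs, rfl⟩
        exact hτ s (hL' hs)
      have hd : Nat.card (pL L) = 1 ∨ Nat.card (pL L) = ℓ := by
        refine (Nat.dvd_prime (Fact.out : ℓ.Prime)).1 ?_
        rw [← ha]
        exact Subgroup.card_dvd_of_le hle
      rcases hd with h | h
      · right
        have h3 : pL L = ⊥ := Subgroup.card_eq_one.1 h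
        intro s hs
        refine ⟨hL' hs, ?_⟩
        have h4 := p_mem hs
        rw [h3] at h4
        exact h4
      · left
        exact ⟨Subgroup.eq_of_le_of_card_ge hle (by rw [ha, h]), hL'⟩
    · rintro (h | h)
      · exact h.2
      · intro s hs
        exact (h hs).1
  have hd : Disjoint {L : Set (SO.SS n V₀) | pL L = a ∧ L ⊆ τ} {L | L ⊆ P1 τ} := by
    rw [Set.disjoint_left]
    rintro L ⟨h3, -⟩ h4
    apply ha1
    rw [← h3]
    exact pL_bot fun s hs => (h4 hs).2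
  rw [hu, finsum_mem_union hd (Set.toFinite _) (Set.toFinite _), h2] at h1
  rw [← h1, add_sub_cancel_right]

theorem fre_P1 {σ : MulAut V₀} {τ : Set (SO.SS n V₀)} (h : ∀ s ∈ τ, σ s.2.2.2 = s.2.2.1) :
    Fre (P1 τ) := by
  intro s hs _ _
  refine ⟨hs.2, ?_⟩
  have h1 := h s hs.1
  rw [hs.2] at h1
  exact (MulEquiv.map_eq_one_iff σ).1 h1

end typ

section fws

variable {V₀ G : Type} [CommGroup V₀] [Finite V₀] [Group G] [Fintype G]
  {M : Ideal (integralClosure ℤ ℂ)} [M.IsMaximal] {n : ℕ}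

/-- the sums `FWS` as sums over the pairs -/
theorem fws_eq {ℓ : ℕ} [Fact ℓ.Prime] (B : Bk (FF M) V₀ G) (m : ℕ) (σ : MulAut V₀)
    {a : Subgroup V₀} (ha : Nat.card a = ℓ) (F : Set (SO.SS n V₀) → ℚ) (z : G → ℂ) :
    FWS B m σ a F z = (Nat.card (B.C a) : ℂ)⁻¹ * ∑ w : G × G, z (SO.kap w.1 w.2) *
      ((F (tau B m σ a w) - F (P1 (tau B m σ a w)) : ℚ) : ℂ) := by
  classical
  have hf : Finite (SO.SS n V₀) := inferInstance
  have : Fintype (Set (SO.SS n V₀)) := Fintype.ofFinite _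
  have h1 : ∀ w : G × G, ((F (tau B m σ a w) - F (P1 (tau B m σ a w)) : ℚ) : ℂ) =
      ∑ L : Set (SO.SS n V₀), if pL L = a ∧ L ⊆ tau B m σ a w then ((mob F L : ℚ) : ℂ) else 0 := by
    intro w
    rw [← mob_sum ha F (tau B m σ a w) (fun s hs => hs.1), finsum_mem_def,
      finsum_eq_sum_of_fintype, Rat.cast_sum]
    refine Finset.sum_congr rfl fun L _ => ?_
    rw [Set.indicator_apply]
    by_cases h : pL L = a ∧ L ⊆ tau B m σ a w
    · have h' : L ∈ {L : Set (SO.SS n V₀) | pL L = a ∧ L ⊆ tau B m σ a w} := h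
      rw [if_pos h, if_pos h']
    · have h' : L ∉ {L : Set (SO.SS n V₀) | pL L = a ∧ L ⊆ tau B m σ a w} := h
      rw [if_neg h, if_neg h', Rat.cast_zero]
  unfold FWS
  rw [finsum_mem_def, finsum_eq_sum_of_fintype]
  have h2 : ∀ w : G × G, z (SO.kap w.1 w.2) *
      ((F (tau B m σ a w) - F (P1 (tau B m σ a w)) : ℚ) : ℂ) = ∑ L : Set (SO.SS n V₀),
        if pL L = a ∧ L ⊆ tau B m σ a w then ((mob F L : ℚ) : ℂ) * z (SO.kap w.1 w.2) else 0 := by
    intro w
    rw [h1, Finset.mul_sum]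
    refine Finset.sum_congr rfl fun L _ => ?_
    by_cases h : pL L = a ∧ L ⊆ tau B m σ a w
    · rw [if_pos h, if_pos h, mul_comm]
    · rw [if_neg h, if_neg h, mul_zero]
  rw [Finset.sum_congr rfl fun w _ => h2 w, Finset.sum_comm, Finset.mul_sum]
  refine Finset.sum_congr rfl fun L _ => ?_
  rw [Set.indicator_apply]
  by_cases hL : pL L = a ∧ ∀ s ∈ L, σ s.2.2.2 = s.2.2.1
  · have h3 : (if L ∈ {L : Set (SO.SS n V₀) | pL L = a ∧ ∀ s ∈ L, σ s.2.2.2 = s.2.2.1} then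
        ((mob F L : ℚ) : ℂ) * HX B m a z L else 0) = ((mob F L : ℚ) : ℂ) * HX B m a z L :=
      if_pos hL
    rw [h3, hx_def, finsum_eq_sum_of_fintype, cnt_sum]
    have h4 : ∀ w : G × G, (if pL L = a ∧ L ⊆ tau B m σ a w then
        ((mob F L : ℚ) : ℂ) * z (SO.kap w.1 w.2) else 0) = ((mob F L : ℚ) : ℂ) *
        (if ∀ s ∈ L, Cs B m w.1 w.2 s then z (SO.kap w.1 w.2) else 0) := by
      intro w
      have h5 : (pL L = a ∧ L ⊆ tau B m σ a w) ↔ ∀ s ∈ L, Cs B m w.1 w.2 s := by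
        constructor
        · rintro ⟨-, h⟩ s hs
          exact (h hs).2.2
        · intro h
          refine ⟨hL.1, fun s hs => ⟨?_, hL.2 s hs, h s hs⟩⟩
          rw [← hL.1]
          exact p_mem hs
      by_cases h6 : ∀ s ∈ L, Cs B m w.1 w.2 s
      · rw [if_pos (h5.2 h6), if_pos h6]
      · rw [if_neg (fun h => h6 (h5.1 h)), if_neg h6, mul_zero]
    rw [Finset.sum_congr rfl fun w _ => h4 w, ← Finset.mul_sum]
    ring
  · have h3 : (if L ∈ {L : Set (SO.SS n V₀) | pL L = a ∧ ∀ s ∈ L, σ s.2.2.2 = s.2.2.1} then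
        ((mob F L : ℚ) : ℂ) * HX B m a z L else 0) = 0 := if_neg hL
    rw [h3]
    symm
    rw [Finset.sum_eq_zero, mul_zero]
    intro w _
    rw [if_neg]
    rintro ⟨h4, h5⟩
    exact hL ⟨h4, fun s hs => (h5 hs).2.1⟩

/-- the type of a pair is free iff the pair is not in `C a` -/
theorem fre_tau {ℓ : ℕ} [Fact ℓ.Prime] (B : Bk (FF M) V₀ G)
    (m : ℕ) (σ : MulAut V₀) {a : Subgroup V₀} (ha : Nat.card a = ℓ) (hn : 0 < n) (w : G × G) :
    Fre (tau B m σ a w : Set (SO.SS n V₀)) ↔ ¬ (w.1 ∈ B.C a ∧ w.2 ∈ B.C a) := by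
  have ha1 : a ≠ ⊥ := by
    intro h
    rw [h, Subgroup.card_bot] at ha
    exact (Fact.out : ℓ.Prime).one_lt.ne ha
  have hmem : ∀ z : G, z ∈ B.C a ↔ ∀ p ∈ a, B.i p * z = z * B.i p := by
    intro z
    unfold Bk.C
    rw [Subgroup.mem_centralizer_iff]
    constructor
    · intro h p hp
      exact h _ ⟨p, hp, rfl⟩
    · rintro h _ ⟨p, hp, rfl⟩
      exact h p hp
  constructor
  · rintro hF ⟨h1, h2⟩
    obtain ⟨p, hp1⟩ := Subgroup.ne_bot_iff_exists_ne_one.1 ha1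
    have hp : (p : V₀) ∈ a := p.2
    have hmt : ((⟨0, hn⟩, ⟨0, hn⟩, (p : V₀), σ⁻¹ p) : SO.SS n V₀) ∈ (tau B m σ a w) := by
      refine ⟨hp, MulAut.apply_inv_self _ σ _, ?_, ?_⟩
      · show ((SO.kap w.1 w.2 ^ m) ^ 0 * B.i p) * w.1 = w.1 * ((SO.kap w.1 w.2 ^ m) ^ 0 * B.i p)
        rw [pow_zero, one_mul]
        exact (hmem w.1).1 h1 p hp
      · show w.2⁻¹ * ((SO.kap w.1 w.2 ^ m) ^ 0 * B.i p) * w.2 =
          (SO.kap w.1 w.2 ^ m) ^ 0 * B.i p * (w.1 ^ m) ^ 0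
        rw [pow_zero, pow_zero, one_mul, mul_one, mul_assoc, (hmem w.2).1 h2 p hp,
          inv_mul_cancel_left]
    have h3 := (hF _ hmt rfl rfl).1
    exact hp1 (Subtype.ext h3)
  · intro h s hs h1 h2
    obtain ⟨hp, hq, hc1, hc2⟩ := hs
    rw [h2, pow_zero, one_mul] at hc1
    rw [h1, h2, pow_zero, pow_zero, one_mul, mul_one] at hc2
    have hp1 : s.2.2.1 = 1 := by
      by_contra hne
      apply h
      have hz : Subgroup.zpowers s.2.2.1 = a := by
        have hle : Subgroup.zpowers s.2.2.1 ≤ a := by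
          rw [Subgroup.zpowers_le]
          exact hp
        refine Subgroup.eq_of_le_of_card_ge hle ?_
        have hd : Nat.card (Subgroup.zpowers s.2.2.1) = 1 ∨
            Nat.card (Subgroup.zpowers s.2.2.1) = ℓ := by
          refine (Nat.dvd_prime (Fact.out : ℓ.Prime)).1 ?_
          rw [← ha]
          exact Subgroup.card_dvd_of_le hle
        rcases hd with h3 | h3
        · exfalso
          have h4 : Subgroup.zpowers s.2.2.1 = ⊥ := Subgroup.card_eq_one.1 h3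
          exact hne (Subgroup.zpowers_eq_bot.1 h4)
        · rw [ha, h3]
      have hall : ∀ x : G, B.i s.2.2.1 * x = x * B.i s.2.2.1 → x ∈ B.C a := by
        intro x hx
        rw [hmem]
        intro p hpa
        rw [← hz] at hpa
        obtain ⟨k, rfl⟩ := Subgroup.mem_zpowers_iff.1 hpa
        rw [map_zpow]
        have h5 : Commute (B.i s.2.2.1) x := hx
        exact h5.zpow_left k
      refine ⟨hall _ hc1, hall _ ?_⟩
      rw [mul_assoc] at hc2
      have h6 := congrArg (fun t => w.2 * t) hc2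
      simp only [mul_inv_cancel_left] at h6
      exact h6
    refine ⟨hp1, ?_⟩
    rw [hp1] at hq
    exact (MulEquiv.map_eq_one_iff σ).1 hq

end fws

section frob

variable {V₀ G : Type} [CommGroup V₀] [Group G] [Fintype G]
  {M : Ideal (integralClosure ℤ ℂ)} [M.IsMaximal]

/-- the sum over the commutators of a subgroup -/
theorem kap_sum (H : Subgroup G) (z : G → ℂ) [Fintype H] [Fintype (Irr H)] :
    ∑ w : H × H, z (SO.kap (w.1 : G) (w.2 : G)) =
      (Nat.card H : ℂ) * ∑ θ : Irr H, (∑ g : H, z g * (θ : H → ℂ) g) / (θ : H → ℂ) 1 := by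
  classical
  have h1 : ∀ g : H, (∑ w : H × H, if w.1 * w.2 * w.1⁻¹ * w.2⁻¹ = g then (1 : ℂ) else 0) =
      ∑ θ : Irr H, (Nat.card H : ℂ) * ((θ : H → ℂ) g / (θ : H → ℂ) 1) := by
    intro g
    rw [← SO.H65.frobS g, Nat.card_eq_fintype_card, Fintype.card_subtype, Finset.card_filter,
      Nat.cast_sum]
    refine Finset.sum_congr rfl fun w _ => ?_
    split_ifs
    · rw [Nat.cast_one]
    · rw [Nat.cast_zero]
  have h2 : ∀ w : H × H, z (SO.kap (w.1 : G) (w.2 : G)) =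
      ∑ g : H, z g * (if w.1 * w.2 * w.1⁻¹ * w.2⁻¹ = g then (1 : ℂ) else 0) := by
    intro w
    simp only [mul_ite, mul_one, mul_zero]
    rw [Finset.sum_ite_eq, if_pos (Finset.mem_univ _)]
    rfl
  rw [Finset.sum_congr rfl fun w _ => h2 w, Finset.sum_comm]
  have h3 : ∀ g : H, ∑ w : H × H, z g * (if w.1 * w.2 * w.1⁻¹ * w.2⁻¹ = g then (1 : ℂ) else 0) =
      ∑ θ : Irr H, (Nat.card H : ℂ) * (z g * (θ : H → ℂ) g / (θ : H → ℂ) 1) := by
    intro g
    rw [← Finset.mul_sum, h1, Finset.mul_sum]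
    refine Finset.sum_congr rfl fun θ _ => ?_
    ring
  rw [Finset.sum_congr rfl fun g _ => h3 g, Finset.sum_comm, Finset.mul_sum]
  refine Finset.sum_congr rfl fun θ _ => ?_
  rw [← Finset.mul_sum, Finset.sum_div]

theorem ext_sum (H : Subgroup G) [Fintype H] (z : G → ℂ) (χ : G → ℂ) (h : ∀ g, g ∉ H → χ g = 0) :
    ∑ g : G, z g * χ g = ∑ g : H, z g * χ g := by
  classical
  have h1 : ∑ g : H, z g * χ g = ∑ g ∈ Finset.univ.filter (fun g : G => g ∈ H), z g * χ g := by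
    rw [← Finset.sum_subtype (Finset.univ.filter (fun g : G => g ∈ H)) (fun x => by simp)
      (fun g => z g * χ g)]
  rw [h1]
  symm
  refine Finset.sum_subset (Finset.filter_subset _ _) fun g _ hg => ?_
  rw [h g (fun h' => hg (Finset.mem_filter.2 ⟨Finset.mem_univ _, h'⟩)), mul_zero]

/-- the sum of the central characters over the block as the sum over all characters -/
theorem ch_sum (B : Bk (FF M) V₀ G) (a : Subgroup V₀) (z : G → ℂ) (hz : Cz B a z)
    [Fintype (B.C a)] [Fintype (Irr (B.C a))] :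
    ∑ᶠ χ ∈ Ch B a, cv z χ =
      ∑ θ : Irr (B.C a), (∑ g : B.C a, z g * (θ : B.C a → ℂ) g) / (θ : B.C a → ℂ) 1 := by
  classical
  let A : Set (G → ℂ) := {χ | (∀ g, g ∉ B.C a → χ g = 0) ∧
    (fun t : B.C a => χ t) ∈ Irr (B.C a)}
  have hsub : Ch B a ⊆ A := fun χ hχ => ⟨hχ.1, hχ.2.1⟩
  have h1 : ∑ᶠ χ ∈ Ch B a, cv z χ = ∑ᶠ χ ∈ A, cv z χ := by
    rw [finsum_mem_def, finsum_mem_def]
    refine finsum_congr fun χ => ?_
    by_cases h : χ ∈ Ch B a
    · rw [Set.indicator_of_mem h, Set.indicator_of_mem (hsub h)]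
    · rw [Set.indicator_of_notMem h]
      by_cases h' : χ ∈ A
      · rw [Set.indicator_of_mem h', hz.blk χ h'.1 h'.2 h]
      · rw [Set.indicator_of_notMem h']
  have h2 : ∑ᶠ θ ∈ Irr (B.C a), (∑ g : B.C a, z g * θ g) / θ 1 = ∑ᶠ χ ∈ A, cv z χ := by
    refine finsum_mem_eq_of_bijOn (fun θ => PP.ext0 (B.C a) θ) ⟨?_, ?_, ?_⟩ ?_
    · intro θ hθ
      refine ⟨fun g hg => ?_, ?_⟩
      · show PP.ext0 (B.C a) θ g = 0
        unfold PP.ext0
        exact dif_neg hg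
      · have h3 : (fun t : B.C a => PP.ext0 (B.C a) θ t) = θ := by
          funext t
          unfold PP.ext0
          rw [dif_pos t.2]
        show (fun t : B.C a => PP.ext0 (B.C a) θ t) ∈ Irr (B.C a)
        rw [h3]
        exact hθ
    · intro θ _ θ' _ h
      funext t
      have h3 : PP.ext0 (B.C a) θ t = PP.ext0 (B.C a) θ' t := congrFun h t
      unfold PP.ext0 at h3
      rw [dif_pos t.2, dif_pos t.2] at h3
      exact h3
    · intro χ hχ
      refine ⟨fun t => χ t, hχ.2, ?_⟩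
      funext g
      show PP.ext0 (B.C a) (fun t => χ t) g = χ g
      unfold PP.ext0
      by_cases hg : g ∈ B.C a
      · rw [dif_pos hg]
      · rw [dif_neg hg, hχ.1 g hg]
    · intro θ _
      unfold cv
      rw [finsum_eq_sum_of_fintype, ext_sum (B.C a) z (PP.ext0 (B.C a) θ) (fun g hg => by
        unfold PP.ext0
        exact dif_neg hg)]
      have h3 : ∀ t : B.C a, PP.ext0 (B.C a) θ t = θ t := by
        intro t
        unfold PP.ext0
        rw [dif_pos t.2]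
      have h4 : PP.ext0 (B.C a) θ 1 = θ 1 := h3 1
      rw [h4]
      congr 1
      refine Finset.sum_congr rfl fun g _ => ?_
      rw [h3]
  rw [h1, ← h2, ← finsum_set_coe_eq_finsum_mem (s := Irr (B.C a))
    (f := fun θ : B.C a → ℂ => (∑ g : B.C a, z g * θ g) / θ 1), finsum_eq_sum_of_fintype]

end frob

/-- Row FT3. -/
theorem ft3 : Ft3Stmt := by
  intro ℓ _ M _ hM hℓ V₀ G _ _ _ _ E₀ hq B hB n m hPE a ha σ hσ δ z hz
  classical
  have hfG : Fintype G := Fintype.ofFinite G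
  have : Fintype (Irr (B.C a)) := Fintype.ofFinite _
  have hn : 0 < n := by
    obtain ⟨r, -, rfl⟩ := hPE.pw
    exact pow_pos (Fact.out : ℓ.Prime).pos r
  rw [fws_eq B m σ ha, ch_sum B a z hz]
  have h1 : ∀ w : G × G, z (SO.kap w.1 w.2) *
      (((if Fre (tau B m σ a w : Set (SO.SS n V₀)) then δ else 0) -
        (if Fre (P1 (tau B m σ a w : Set (SO.SS n V₀))) then δ else 0) : ℚ) : ℂ) =
      -(δ : ℂ) * (if w.1 ∈ B.C a ∧ w.2 ∈ B.C a then z (SO.kap w.1 w.2) else 0) := by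
    intro w
    rw [if_pos (fre_P1 (σ := σ) (fun s hs => hs.2.1) :
      Fre (P1 (tau B m σ a w : Set (SO.SS n V₀))))]
    by_cases h : w.1 ∈ B.C a ∧ w.2 ∈ B.C a
    · rw [if_neg (fun h' => (fre_tau B m σ ha hn w).1 h' h), if_pos h]
      push_cast
      ring
    · rw [if_pos ((fre_tau B m σ ha hn w).2 h), if_neg h]
      push_cast
      ring
  rw [Finset.sum_congr rfl fun w _ => h1 w, ← Finset.mul_sum]
  have h2 : ∑ w : G × G, (if w.1 ∈ B.C a ∧ w.2 ∈ B.C a then z (SO.kap w.1 w.2) else 0) =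
      ∑ w : B.C a × B.C a, z (SO.kap (w.1 : G) (w.2 : G)) := by
    rw [Fintype.sum_prod_type, Fintype.sum_prod_type]
    have e1 : ∀ f : G → ℂ, ∑ x : B.C a, f x = ∑ x : G, if x ∈ B.C a then f x else 0 := by
      intro f
      rw [← Finset.sum_filter]
      rw [← Finset.sum_subtype (Finset.univ.filter (fun g : G => g ∈ B.C a)) (fun x => by simp) f]
    rw [e1 (fun x => ∑ y : B.C a, z (SO.kap x (y : G)))]
    refine Finset.sum_congr rfl fun x _ => ?_
    by_cases hx : x ∈ B.C a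
    · rw [if_pos hx, e1 (fun y => z (SO.kap x y))]
      refine Finset.sum_congr rfl fun y _ => ?_
      by_cases hy : y ∈ B.C a
      · rw [if_pos ⟨hx, hy⟩, if_pos hy]
      · rw [if_neg (fun h => hy h.2), if_neg hy]
    · rw [if_neg hx]
      refine Finset.sum_eq_zero fun y _ => ?_
      rw [if_neg (fun h => hx h.1)]
  rw [h2, kap_sum (B.C a) z]
  have h3 : (Nat.card (B.C a) : ℂ) ≠ 0 := Nat.cast_ne_zero.2 Nat.card_pos.ne'
  field_simp

end Pool.Agent.PP.SE.H47
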