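import Pool.Agent.Helper47_ASE.X2R
import Pool.Agent.Helper63_ASO.W12A
import Pool.Agent.Helper82_K9.WBO
import Pool.Agent.Helper82_K9.TRB
import Pool.Agent.Helper53_K9.Tra

/-!
# Squad ASE, row HXY: the sums `HX` in terms of `HY`
-/

open scoped BigOperators

set_option linter.unusedSectionVars false

noncomputable section

namespace Pool.Agent.PP.SE.H47

open Pool.Agent.Helper51_AWC Pool.Agent.Helper79_WRA Pool.Agent.PP Pool.Agent.PP.KF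
open Pool.Agent.PP.K9 Pool.Agent.PP.K9.H97 Pool.Agent.PP.H75 Pool.Agent.PP.T3 Pool.Agent.PP.SO
open Pool.Agent.PP.SD

attribute [local instance] Ideal.Quotient.field

section cnds

variable {V₀ G : Type} [CommGroup V₀] [Group G] {M : Ideal (integralClosure ℤ ℂ)} [M.IsMaximal]
  {n : ℕ}

/-- the number of the pairs in `HY` -/
def cny (B : Bk (FF M) V₀ G) (m : ℕ) (T : Set (V₀ × ℕ)) (g : G) : ℂ :=
  ({w : G × G | SO.kap w.1 w.2 = g ∧ ∀ t ∈ T,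
    B.i t.1 * w.1 = w.1 * B.i t.1 ∧ w.2⁻¹ * B.i t.1 * w.2 = B.i t.1 * (w.1 ^ m) ^ t.2}.ncard : ℂ)

theorem cny_le (B : Bk (FF M) V₀ G) (m : ℕ) (T : Set (V₀ × ℕ)) (z g : G)
    (hz : ∀ t ∈ T, z * B.i t.1 = B.i t.1 * z) (x y : G)
    (h : SO.kap x y = g ∧ ∀ t ∈ T, B.i t.1 * x = x * B.i t.1 ∧
      y⁻¹ * B.i t.1 * y = B.i t.1 * (x ^ m) ^ t.2) :
    SO.kap (z * x * z⁻¹) (z * y * z⁻¹) = z * g * z⁻¹ ∧ ∀ t ∈ T,
      B.i t.1 * (z * x * z⁻¹) = z * x * z⁻¹ * B.i t.1 ∧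
      (z * y * z⁻¹)⁻¹ * B.i t.1 * (z * y * z⁻¹) = B.i t.1 * ((z * x * z⁻¹) ^ m) ^ t.2 := by
  refine ⟨?_, fun t ht => ?_⟩
  · rw [← h.1]
    unfold SO.kap
    group
  · obtain ⟨h1, h2⟩ := h.2 t ht
    have hp : B.i t.1 = z * B.i t.1 * z⁻¹ := by rw [hz t ht]; group
    constructor
    · calc B.i t.1 * (z * x * z⁻¹) = z * B.i t.1 * z⁻¹ * (z * x * z⁻¹) := by rw [← hp]
        _ = z * (B.i t.1 * x) * z⁻¹ := by group
        _ = z * x * z⁻¹ * (z * B.i t.1 * z⁻¹) := by rw [h1]; group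
        _ = z * x * z⁻¹ * B.i t.1 := by rw [← hp]
    · rw [conj_pow, conj_pow]
      calc (z * y * z⁻¹)⁻¹ * B.i t.1 * (z * y * z⁻¹) =
          (z * y * z⁻¹)⁻¹ * (z * B.i t.1 * z⁻¹) * (z * y * z⁻¹) := by rw [← hp]
        _ = z * (y⁻¹ * B.i t.1 * y) * z⁻¹ := by group
        _ = z * B.i t.1 * z⁻¹ * (z * (x ^ m) ^ t.2 * z⁻¹) := by rw [h2]; group
        _ = B.i t.1 * (z * (x ^ m) ^ t.2 * z⁻¹) := by rw [← hp]

theorem cny_conj (B : Bk (FF M) V₀ G) (m : ℕ) (T : Set (V₀ × ℕ)) (z g : G)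
    (hz : ∀ t ∈ T, z * B.i t.1 = B.i t.1 * z) : cny B m T (z * g * z⁻¹) = cny B m T g := by
  unfold cny
  have hinj : Function.Injective (fun w : G × G => (z * w.1 * z⁻¹, z * w.2 * z⁻¹)) := by
    intro a b hab
    rw [Prod.mk.injEq, mul_left_inj, mul_right_inj, mul_left_inj, mul_right_inj] at hab
    exact Prod.ext hab.1 hab.2
  rw [← Set.ncard_image_of_injective {w : G × G | SO.kap w.1 w.2 = g ∧ ∀ t ∈ T,
    B.i t.1 * w.1 = w.1 * B.i t.1 ∧ w.2⁻¹ * B.i t.1 * w.2 = B.i t.1 * (w.1 ^ m) ^ t.2} hinj]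
  congr 2
  ext w
  constructor
  · intro h
    have hz' : ∀ t ∈ T, z⁻¹ * B.i t.1 = B.i t.1 * z⁻¹ := by
      intro t ht
      have h1 : Commute z (B.i t.1) := hz t ht
      exact h1.inv_left
    have h3 := cny_le B m T z⁻¹ (z * g * z⁻¹) hz' w.1 w.2 h
    rw [inv_inv] at h3
    refine ⟨(z⁻¹ * w.1 * z, z⁻¹ * w.2 * z), ⟨?_, h3.2⟩, ?_⟩
    · show SO.kap (z⁻¹ * w.1 * z) (z⁻¹ * w.2 * z) = g
      rw [h3.1]
      group
    · refine Prod.ext ?_ ?_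
      · show z * (z⁻¹ * w.1 * z) * z⁻¹ = w.1
        group
      · show z * (z⁻¹ * w.2 * z) * z⁻¹ = w.2
        group
  · rintro ⟨v, h, rfl⟩
    exact cny_le B m T z g hz v.1 v.2 h

/-- the conditions for `L` and for `TL κ L` -/
theorem cny_TL (B : Bk (FF M) V₀ G) (m : ℕ) (κ : V₀) (L : Set (SO.SS n V₀)) (g : G) :
    cny B m (TL κ L) g = ({w : G × G | SO.kap w.1 w.2 = g ∧ ∀ s ∈ L,
        B.i (κ ^ (s.2.1 : ℕ) * s.2.2.1) * w.1 = w.1 * B.i (κ ^ (s.2.1 : ℕ) * s.2.2.1) ∧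
        w.2⁻¹ * B.i (κ ^ (s.2.1 : ℕ) * s.2.2.1) * w.2 =
          B.i (κ ^ (s.2.1 : ℕ) * s.2.2.1) * (w.1 ^ m) ^ (s.1 : ℕ)}.ncard : ℂ) := by
  unfold cny
  congr 2
  ext w
  refine and_congr_right fun _ => ?_
  constructor
  · intro h s hs
    exact h _ ⟨s, hs, rfl⟩
  · rintro h t ⟨s, hs, rfl⟩
    exact h s hs

theorem cnt_eq (B : Bk (FF M) V₀ G) (m : ℕ) (κ : V₀) (L : Set (SO.SS n V₀)) (g : G)
    (hg : g ^ m = B.i κ) : cnt B m L g = cny B m (TL κ L) g := by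
  rw [cny_TL]
  unfold cnt
  congr 2
  ext w
  refine and_congr_right fun _ => forall₂_congr fun s _ => ?_
  rw [hg, ← map_pow, ← map_mul]

end cnds

section main

variable {V₀ G : Type} [CommGroup V₀] [Group G] [Finite G] {M : Ideal (integralClosure ℤ ℂ)}
  [M.IsMaximal] {n : ℕ}

theorem bh_sing (wbo : WboStmt) (ℓ : ℕ) [Fact ℓ.Prime] (hM : (ℓ : integralClosure ℤ ℂ) ∈ M)
    {E₀ : Subgroup (MulAut V₀)} {B : Bk (FF M) V₀ G} (hB : Sb ℓ M E₀ B) (W : Subgroup V₀) (s : G)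
    (hs : ¬ Reg ℓ s) : bh B W s = 0 := by
  classical
  have := Fintype.ofFinite (B.C W)
  unfold bh PP.ext0
  by_cases h : s ∈ B.C W
  · rw [dif_pos h]
    refine K9.H25.eh_sing wbo ℓ M hM (fun t : B.C W => B.b W t) (hB.lb W).blk.blk.1 ⟨s, h⟩ ?_
    intro h1
    apply hs
    have h2 : orderOf (⟨s, h⟩ : B.C W) = orderOf s := by
      rw [← Subgroup.orderOf_coe]
    have h3 : (orderOf (⟨s, h⟩ : B.C W)).Coprime ℓ := h1
    show (orderOf s).Coprime ℓ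
    rw [← h2]
    exact h3
  · rw [dif_neg h]

theorem pow_m {ℓ : ℕ} [Fact ℓ.Prime] {E₀ : Subgroup (MulAut V₀)} (hq : Fq ℓ V₀ E₀)
    {B : Bk (FF M) V₀ G} {m : ℕ} (hPE : PE ℓ n m G) {W : Subgroup V₀} {κ : V₀} (hκ : κ ∈ W) {t : G}
    (ht : t ∈ B.C W) (hr : Reg ℓ t) : (B.i κ * t) ^ m = B.i κ := by
  have hcom : Commute (B.i κ) t := ((H63.mem_C B W t).1 ht κ hκ).symm
  have hel : El ℓ (B.i κ) := ⟨1, by rw [pow_one, ← map_pow, hq.ex, map_one]⟩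
  rw [hcom.mul_pow, (hPE.el _ hel).1, hPE.rg t hr, mul_one]

theorem sup_aL (κ : V₀) (L : Set (SO.SS n V₀)) :
    aL κ L ⊔ Subgroup.zpowers κ = pL L ⊔ Subgroup.zpowers κ := by
  apply le_antisymm
  · refine sup_le ?_ le_sup_right
    unfold aL
    rw [Subgroup.closure_le]
    rintro _ ⟨s, hs, rfl⟩
    refine Subgroup.mul_mem _ ?_ ?_
    · exact Subgroup.pow_mem _ ((le_sup_right : Subgroup.zpowers κ ≤ _)
        (Subgroup.mem_zpowers κ)) _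
    · exact (le_sup_left : pL L ≤ _) (Subgroup.subset_closure ⟨s, hs, rfl⟩)
  · refine sup_le ?_ le_sup_right
    unfold pL
    rw [Subgroup.closure_le]
    rintro _ ⟨s, hs, rfl⟩
    have h1 : κ ^ (s.2.1 : ℕ) * s.2.2.1 ∈ aL κ L ⊔ Subgroup.zpowers κ :=
      (le_sup_left : aL κ L ≤ _) (Subgroup.subset_closure ⟨s, hs, rfl⟩)
    have h2 : κ ^ (s.2.1 : ℕ) ∈ aL κ L ⊔ Subgroup.zpowers κ :=
      Subgroup.pow_mem _ ((le_sup_right : Subgroup.zpowers κ ≤ _) (Subgroup.mem_zpowers κ)) _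
    have h3 := Subgroup.mul_mem _ (Subgroup.inv_mem _ h2) h1
    rwa [inv_mul_cancel_left] at h3

theorem hxy_of (wbo : WboStmt) {ℓ : ℕ} [Fact ℓ.Prime] (hM : (ℓ : integralClosure ℤ ℂ) ∈ M)
    {E₀ : Subgroup (MulAut V₀)} (hq : Fq ℓ V₀ E₀) {B : Bk (FF M) V₀ G} (hB : Sb ℓ M E₀ B)
    {m : ℕ} (hPE : PE ℓ n m G) (L : Set (SO.SS n V₀)) (κ : V₀) :
    HX B m (pL L) (fc B (pL L) κ) L = HK B m κ L ∧
    HK B m κ L = HY B m (aL κ L) (fc B (aL κ L) κ) (TL κ L) ∧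
    ∀ (W : Subgroup V₀) (f : G → ℂ), κ ∈ W → (∀ g, g ∉ B.C W → f g = 0) →
      (∀ g, ¬ Reg ℓ g → f g = 0) → HX B m W (tk B κ f) L = HY B m W (tk B κ f) (TL κ L) := by
  classical
  have hfG : Fintype G := Fintype.ofFinite G
  have hκW : ∀ W : Subgroup V₀, κ ∈ W ⊔ Subgroup.zpowers κ := fun W =>
    (le_sup_right : Subgroup.zpowers κ ≤ _) (Subgroup.mem_zpowers κ)
  refine ⟨?_, ?_, fun W f hκ hf hf' => ?_⟩
  · -- (1)
    have hR : ∀ z ∈ B.C (pL L), ∀ g, cnt B m L (z * g * z⁻¹) = cnt B m L g := fun z hz g =>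
      H63.rk_conj m B.i L z g ((H63.mem_pL B L z).1 hz)
    have h1 := H63.fc_avg B (pL L) κ (cnt B m L) hR
    rw [hx_def, finsum_eq_sum_of_fintype, h1, ← mul_assoc, ← mul_assoc,
      inv_mul_cancel₀ (H63.card_ne (B.C (pL L))), one_mul]
    unfold HK
    rw [sup_aL, finsum_eq_sum_of_fintype]
    congr 1
    refine Finset.sum_congr rfl fun t _ => ?_
    by_cases hb : bh B (pL L ⊔ Subgroup.zpowers κ) t = 0
    · rw [hb, zero_mul, zero_mul]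
    have ht : t ∈ B.C (pL L ⊔ Subgroup.zpowers κ) := by
      by_contra h
      exact hb (H63.bh_supp B _ t h)
    have hr : Reg ℓ t := by
      by_contra h
      exact hb (bh_sing wbo ℓ hM hB _ t h)
    rw [cnt_eq B m κ L (B.i κ * t) (pow_m hq hPE (hκW _) ht hr), cny_TL]
  · -- (2)
    have hR : ∀ z ∈ B.C (aL κ L), ∀ g, cny B m (TL κ L) (z * g * z⁻¹) = cny B m (TL κ L) g := by
      intro z hz g
      refine cny_conj B m (TL κ L) z g ?_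
      rintro t ⟨s, hs, rfl⟩
      exact (H63.mem_C B (aL κ L) z).1 hz _ (Subgroup.subset_closure ⟨s, hs, rfl⟩)
    have h1 := H63.fc_avg B (aL κ L) κ (cny B m (TL κ L)) hR
    have h2 : HY B m (aL κ L) (fc B (aL κ L) κ) (TL κ L) = (Nat.card (B.C (aL κ L)) : ℂ)⁻¹ *
        ∑ g, fc B (aL κ L) κ g * cny B m (TL κ L) g := by
      unfold HY
      rw [finsum_eq_sum_of_fintype]
      rfl
    rw [h2, h1, ← mul_assoc, ← mul_assoc, inv_mul_cancel₀ (H63.card_ne (B.C (aL κ L))), one_mul]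
    unfold HK
    rw [finsum_eq_sum_of_fintype]
    congr 1
    refine Finset.sum_congr rfl fun t _ => ?_
    rw [cny_TL]
  · -- (3)
    unfold HX HY
    congr 1
    refine finsum_congr fun g => ?_
    by_cases h0 : tk B κ f g = 0
    · rw [h0, zero_mul, zero_mul]
    have h1 : f ((B.i κ)⁻¹ * g) ≠ 0 := h0
    have ht : (B.i κ)⁻¹ * g ∈ B.C W := by
      by_contra h
      exact h1 (hf _ h)
    have hr : Reg ℓ ((B.i κ)⁻¹ * g) := by
      by_contra h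
      exact h1 (hf' _ h)
    have h2 := pow_m hq hPE hκ ht hr
    rw [mul_inv_cancel_left] at h2
    congr 1
    exact cnt_eq B m κ L g h2

end main

/-- Row HXY. -/
theorem hxy : HxyStmt := by
  intro ℓ _ M _ hM V₀ G _ _ _ _ E₀ hq B hB n m hPE L κ
  exact hxy_of (K9.H82W.wbo (K9.H82.trb K9.H53.tra)) hM hq hB hPE L κ

end Pool.Agent.PP.SE.H47
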