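import Pool.Agent.ASE.Stmts9
import Pool.Agent.Helper25_ASD.LBD
import Pool.Agent.Helper53_AT3.PSG
import Pool.Agent.Helper2_K9.PUG
import Pool.Agent.Helper3_K9.Psi
import Pool.Agent.Helper1_K9.DZO
import Pool.Agent.Helper79_ASO.DGV
import Pool.Agent.Helper82_K9.WBO
import Pool.Agent.Helper82_K9.TRB
import Pool.Agent.Helper53_K9.Tra

/-!
# Squad ASE, row SXB: the block `θ` of defect zero
-/

open scoped BigOperators

set_option linter.unusedSectionVars false

noncomputable section

namespace Pool.Agent.PP.SE.H47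

open Pool.Agent.Helper51_AWC Pool.Agent.Helper79_WRA Pool.Agent.PP Pool.Agent.PP.KF
open Pool.Agent.PP.K9 Pool.Agent.PP.K9.H97 Pool.Agent.PP.H75 Pool.Agent.PP.T3 Pool.Agent.PP.SO
open Pool.Agent.PP.SD

attribute [local instance] Ideal.Quotient.field

section gen

/-- the sum over a subgroup -/
theorem sum_sub {F G : Type} [Field F] [Group G] [Fintype G] (H : Subgroup G) [Fintype H]
    (f : G → F) (hf : ∀ g, g ∉ H → f g = 0) : ∑ g : H, f g = ∑ g : G, f g := by
  classical
  have h1 : ∑ g : H, f g = ∑ g ∈ Finset.univ.filter (fun g : G => g ∈ H), f g := by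
    rw [← Finset.sum_subtype (Finset.univ.filter (fun g : G => g ∈ H)) (fun x => by simp) f]
  rw [h1]
  refine Finset.sum_subset (Finset.filter_subset _ _) fun g _ hg => ?_
  exact hf g (fun h' => hg (Finset.mem_filter.2 ⟨Finset.mem_univ _, h'⟩))

/-- the restriction of the image to the kernel -/
theorem push_res {F G S Q : Type} [Field F] [Group G] [Finite G] [Group S] [Finite S] [Group Q]
    {T C : Subgroup G} (hCT : C ≤ T) (q : T →* S) (φ : S →* Q) (p : C →* φ.ker)
    (hp : ∀ c : C, (p c : S) = q ⟨c, hCT c.2⟩) (g : G → F) (hg : ∀ x, x ∉ C → g x = 0) :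
    (fun t : φ.ker => push q (fun t : T => g t) t) = push p (fun c : C => g c) := by
  classical
  have : Fintype G := Fintype.ofFinite G
  have : Fintype T := Fintype.ofFinite T
  have : Fintype C := Fintype.ofFinite C
  funext y
  rw [push_eq, push_eq]
  let f : G → F := fun x => if h : x ∈ T then (if q ⟨x, h⟩ = y then g x else 0) else 0
  have h1 : ∀ x : T, (if q x = y then g x else 0) = f x := by
    intro x
    show _ = dite _ _ _
    rw [dif_pos x.2]
  have hf : ∀ x, x ∉ C → f x = 0 := by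
    intro x hx
    show dite _ _ _ = _
    by_cases h : x ∈ T
    · rw [dif_pos h, hg x hx]
      split_ifs <;> rfl
    · rw [dif_neg h]
  rw [Finset.sum_congr rfl fun x _ => h1 x,
    sum_sub T f (fun x hx => hf x (fun h => hx (hCT h))), ← sum_sub C f hf]
  refine Finset.sum_congr rfl fun x _ => ?_
  show dite _ _ _ = _
  rw [dif_pos (hCT x.2)]
  have h3 : p x = y ↔ q ⟨x, hCT x.2⟩ = y := by
    rw [← hp x]
    exact Subtype.ext_iff
  by_cases h4 : p x = y
  · rw [if_pos h4, if_pos (h3.1 h4)]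
  · rw [if_neg h4, if_neg (fun h => h4 (h3.2 h))]

/-- the image under an automorphism which fixes the function -/
theorem push_aut {F H : Type} [Field F] [Group H] [Finite H] (α : MulAut H) (b : H → F)
    (hb : ∀ x, b (α x) = b x) : push (α : H ≃* H).toMonoidHom b = b := by
  classical
  have : Fintype H := Fintype.ofFinite H
  funext y
  rw [push_eq]
  have h1 : ∀ x : H, (if (α : H ≃* H).toMonoidHom x = y then b x else 0) =
      if x = α⁻¹ y then b x else 0 := by
    intro x
    refine if_congr ?_ rfl rfl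
    show α x = y ↔ x = α⁻¹ y
    rw [MulAut.inv_apply, MulEquiv.eq_symm_apply]
  rw [Finset.sum_congr rfl fun x _ => h1 x, Finset.sum_ite_eq' Finset.univ (α⁻¹ y) b,
    if_pos (Finset.mem_univ _)]
  have h2 := hb (α⁻¹ y)
  rw [MulAut.apply_inv_self] at h2
  exact h2.symm

end gen

/-- Row SXB. -/
theorem sxb : SxbStmt := by
  intro ℓ _ M _ hM _ V₀ G S _ _ _ _ _ _ E₀ hq B hB q φ hx _
  have hF : GoodF ℓ (FF M) := H50.fld ℓ Fact.out M hM
  have hℓ : ℓ.Prime := Fact.out
  have wbo : WboStmt := K9.H82W.wbo (K9.H82.trb K9.H53.tra)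
  have hbt : B.b ⊤ = B.g := SO.H79.b_top hB.toSb
  have hC : B.C ⊤ = Subgroup.centralizer (B.i.range : Set G) := SO.H79.C_top B
  have hgs : ∀ x, x ∉ B.C ⊤ → B.g x = 0 := by
    intro x hx'
    apply hB.ld.gam.supp
    rwa [← hC]
  have hgb : IsBlk (fun t : B.C ⊤ => B.g t) := by
    have h1 := (hB.lb ⊤).blk.blk
    rw [hbt] at h1
    exact h1
  -- `C ≤ T`
  have hCT : B.C ⊤ ≤ Tg B.i.range B.g := by
    intro n hn
    rw [hC] at hn
    refine ⟨Subgroup.centralizer_le_normalizer _ hn, ?_⟩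
    show ∀ x, B.g (n * x * n⁻¹) = B.g x
    exact (cj_eq_iff n B.g).1 (hB.ld.gam.ix.inv hn)
  have hker : ∀ t : Tg B.i.range B.g, φ (q t) = 1 ↔ (t : G) ∈ B.C ⊤ := by
    intro t
    rw [hC, Subgroup.mem_centralizer_iff]
    constructor
    · rintro h _ ⟨v, rfl⟩
      have h1 := hx.act t v
      rw [h, MulAut.one_apply] at h1
      calc B.i v * (t : G) = (t : G) * B.i v * (t : G)⁻¹ * t := by rw [h1]
        _ = (t : G) * B.i v := by group
    · intro h
      apply MulEquiv.ext
      intro v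
      apply hB.inj
      rw [← hx.act t v, MulAut.one_apply, ← h (B.i v) ⟨v, rfl⟩, mul_inv_cancel_right]
  let p : B.C ⊤ →* φ.ker := (q.comp (Subgroup.inclusion hCT)).codRestrict φ.ker (fun c => by
    rw [MonoidHom.mem_ker]
    exact (hker ⟨c, hCT c.2⟩).2 c.2)
  have hpc : ∀ c : B.C ⊤, (p c : S) = q ⟨c, hCT c.2⟩ := fun c => rfl
  have hp : Function.Surjective p := by
    rintro ⟨s, hs⟩
    obtain ⟨t, rfl⟩ := hx.sur s
    exact ⟨⟨t, (hker t).1 hs⟩, Subtype.ext rfl⟩
  have hpk : p.ker = B.i.range.subgroupOf (B.C ⊤) := by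
    ext c
    rw [MonoidHom.mem_ker, Subgroup.mem_subgroupOf, ← hx.ker ⟨c, hCT c.2⟩, ← hpc c]
    constructor
    · intro h
      rw [h]
      rfl
    · intro h
      exact Subtype.ext h
  have hres : (fun t : φ.ker => push q (fun t => B.g t) t) = push p (fun c : B.C ⊤ => B.g c) :=
    push_res hCT q φ p hpc B.g hgs
  -- the defect group
  have hT : Tp ℓ (fun t : B.C ⊤ => B.g t) (B.i.range.subgroupOf (B.C ⊤)) := by
    have h1 := (SD.H25.lbd ℓ M hM V₀ G E₀ hq B hB.toSb ⊤).1.tp
    rw [hbt] at h1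
    exact h1
  have hpp : IsPGroup ℓ p.ker := by
    rw [hpk]
    exact hT.pg
  have hpz : p.ker ≤ Subgroup.center (B.C ⊤) := by
    intro c hc
    rw [hpk, Subgroup.mem_subgroupOf] at hc
    rw [Subgroup.mem_center_iff]
    intro z
    have hz : (z : G) ∈ Subgroup.centralizer (B.i.range : Set G) := by
      rw [← hC]
      exact z.2
    exact Subtype.ext (Subgroup.mem_centralizer_iff.1 hz _ hc).symm
  have hblk : IsBlk (fun t : φ.ker => push q (fun t => B.g t) t) := by
    rw [hres]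
    exact T3.H53.psg ℓ (FF M) hF _ _ p hp hpz hpp _ hgb
  have hpush : ∀ Q : Subgroup φ.ker, IsPGroup ℓ Q →
      Gd (fun t : φ.ker => push q (fun t => B.g t) t) Q → Q = ⊥ := by
    intro Q hQ hgd
    rw [hres] at hgd
    have h1 : IsPGroup ℓ (Q.comap p) := (isPGroup_comap_iff hp hpp Q).2 hQ
    have h2 : (Q.comap p).map p = Q := Subgroup.map_comap_eq_self_of_surjective hp Q
    have h3 : Gd (fun t : B.C ⊤ => B.g t) (Q.comap p) := by
      refine (K9.H02.pug ℓ (FF M) hF _ _ p hp hpp _ hgb.1 _ (Subgroup.ker_le_comap p Q) h1).2 ?_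
      rw [h2]
      exact hgd
    have h4 := hT.mx _ h1 h3
    rw [card_comap hp, ← hpk] at h4
    have h5 : 0 < Nat.card p.ker := Nat.card_pos
    have h6 : Nat.card Q ≤ 1 := by
      have h7 : Nat.card p.ker * Nat.card Q ≤ Nat.card p.ker * 1 := by
        rw [mul_one]
        exact h4
      exact Nat.le_of_mul_le_mul_left h7 h5
    have h8 : Nat.card Q = 1 := le_antisymm h6 Nat.card_pos
    exact Subgroup.card_eq_one.1 h8
  obtain ⟨κ₀, hκ, -⟩ := K9.H1.dzo wbo ℓ M hM φ.ker _ hblk hpush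
  have hcl : IsCl (push q (fun t => B.g t)) := by
    refine push_isCl hx.sur ?_
    intro x y
    exact y.2.2 x
  have hθz : ∀ x, x ∉ φ.ker → push q (fun t => B.g t) x = 0 := by
    intro x hx'
    classical
    have : Fintype (Tg B.i.range B.g) := Fintype.ofFinite _
    rw [push_eq]
    refine Finset.sum_eq_zero fun t _ => ?_
    by_cases h : q t = x
    · rw [if_pos h]
      apply hgs
      intro h'
      apply hx'
      rw [← h]
      exact (hker t).2 h'
    · rw [if_neg h]
  have hRw : Rw E₀ (⊤ : Subgroup V₀) := by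
    refine ⟨?_, ?_⟩
    · intro h
      have h1 := Subgroup.card_top (G := V₀)
      rw [h, Subgroup.card_bot, hq.cd] at h1
      have h2 : 1 < ℓ ^ 2 := Nat.one_lt_pow (by norm_num) hℓ.one_lt
      omega
    · intro σ _ h
      apply MulEquiv.ext
      intro v
      exact h v (Subgroup.mem_top v)
  have hdg := hB.dg ⊤ hRw
  rw [hbt] at hdg
  have hκ0 : κ₀ ∈ IrrE M (fun t : φ.ker => push q (fun t => B.g t) t) := by
    rw [hκ]
    rfl
  have hext : (fun t : φ.ker => PP.ext0 φ.ker κ₀ t) = κ₀ := by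
    funext t
    unfold PP.ext0
    rw [dif_pos t.2]
  have hez : ∀ x, x ∉ φ.ker → PP.ext0 φ.ker κ₀ x = 0 := by
    intro x hx'
    unfold PP.ext0
    rw [dif_neg hx']
  refine ⟨PP.ext0 φ.ker κ₀, ⟨⟨hθz, hblk⟩, hcl, ⟨?_, ?_, ?_⟩, hez, ?_, ?_, ?_, hdg.1⟩⟩
  · exact IsPGroup.of_bot
  · obtain ⟨x, hx'⟩ : ∃ x, (fun t : φ.ker => push q (fun t => B.g t) t) x ≠ 0 := by
      by_contra h
      push Not at h
      exact hblk.2.1 (funext h)
    refine ⟨x, ?_, hx'⟩
    rw [Subgroup.mem_centralizer_iff]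
    intro y hy
    have hy' : y = 1 := hy
    rw [hy', one_mul, mul_one]
  · intro Q hQ hgd
    rw [hpush Q hQ hgd]
  · rw [hκ, hext]
  · -- `kc`
    intro x y
    by_cases h : x ∈ φ.ker
    · let α : MulAut φ.ker := MulAut.conjNormal y
      have hα : ∀ t : φ.ker, ((α t : φ.ker) : S) = y * t * y⁻¹ := fun t =>
        MulAut.conjNormal_apply y t
      have h1 := (K9.H3.psi M φ.ker φ.ker (α : φ.ker ≃* φ.ker).toMonoidHom
        (MulEquiv.surjective α) _ hblk.1.1).1
      rw [push_aut α _ (fun t => by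
        show push q (fun t => B.g t) (α t) = push q (fun t => B.g t) t
        rw [hα]
        exact hcl _ _)] at h1
      have h2 := hκ0
      rw [h1] at h2
      have h3 := h2.2
      rw [hκ] at h3
      have h4 : (fun a => κ₀ ((α : φ.ker ≃* φ.ker).toMonoidHom a)) = κ₀ := h3
      have h5 := congrFun h4 ⟨x, h⟩
      have h6 : κ₀ (α ⟨x, h⟩) = κ₀ ⟨x, h⟩ := h5
      have e1 : PP.ext0 φ.ker κ₀ x = κ₀ ⟨x, h⟩ := congrFun hext ⟨x, h⟩
      have e2 : PP.ext0 φ.ker κ₀ (y * x * y⁻¹) = κ₀ (α ⟨x, h⟩) := by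
        have h7 := congrFun hext (α ⟨x, h⟩)
        rw [← h7]
        rfl
      rw [e1, e2, h6]
    · rw [hez x h, hez]
      intro h'
      apply h
      have h8 : φ.ker.Normal := inferInstance
      have h9 := h8.conj_mem _ h' y⁻¹
      have e : y⁻¹ * (y * x * y⁻¹) * y⁻¹⁻¹ = x := by group
      rwa [e] at h9
  · -- `kd`
    have h1 := (K9.H3.psi M _ _ p hp _ hgb.1.1).1
    have h2 := hκ0
    rw [hres, h1] at h2
    have h3 := hdg.2 _ h2.2
    have h4 : κ₀ (p 1) = B.D ⊤ := h3
    rw [map_one] at h4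
    rw [← h4]
    have h5 := congrFun hext 1
    exact h5

end Pool.Agent.PP.SE.H47
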